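import Pool.Agent.MP_db5b97_nt.H31.SpecN
import Pool.Agent.MP_807c24_nt.H13.Pnt
import Pool.Agent.MP_807c24_nt.H13.Newman

/-! The prime number theorem, its weighted form and Landau's extremal problem. -/

namespace Pool.Agent.MP_db5b97_nt.H82

open Filter Topology Asymptotics Pool.Agent.MP_db5b97_nt.H31

theorem rowPNT : RowPNT :=
  Pool.Agent.MP_807c24_nt.H13.pnt_of_newman Pool.Agent.MP_807c24_nt.H13.newman

/-- the primes up to `z` -/
noncomputable def PP (z : ℝ) : Finset ℕ := (Finset.range (⌊z⌋₊ + 1)).filter Nat.Prime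

/-- the weighted sum -/
noncomputable def SS (z : ℝ) : ℝ := ∑ p ∈ PP z, (p : ℝ) * Real.log p

theorem mem_PP {z : ℝ} (hz : 0 ≤ z) {p : ℕ} : p ∈ PP z ↔ p.Prime ∧ (p : ℝ) ≤ z := by
  simp only [PP, Finset.mem_filter, Finset.mem_range, Nat.lt_succ_iff, Nat.le_floor_iff hz]
  tauto

theorem theta_PP (z : ℝ) : Chebyshev.theta z = ∑ p ∈ PP z, Real.log p := by
  rw [Chebyshev.theta_eq_sum_Icc, PP, Nat.range_succ_eq_Icc_zero]

theorem theta_succ (N : ℕ) : Chebyshev.theta ((N + 1 : ℕ) : ℝ) =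
    Chebyshev.theta N + if (N + 1).Prime then Real.log ((N + 1 : ℕ) : ℝ) else 0 := by
  rw [theta_PP, theta_PP, PP, PP, Nat.floor_natCast, Nat.floor_natCast, Finset.sum_filter,
    Finset.sum_filter, Finset.sum_range_succ]

theorem SS_succ (N : ℕ) : SS ((N + 1 : ℕ) : ℝ) =
    SS N + if (N + 1).Prime then ((N + 1 : ℕ) : ℝ) * Real.log ((N + 1 : ℕ) : ℝ) else 0 := by
  rw [SS, SS, PP, PP, Nat.floor_natCast, Nat.floor_natCast, Finset.sum_filter,
    Finset.sum_filter, Finset.sum_range_succ]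

theorem SS_abel (N : ℕ) :
    SS N = N * Chebyshev.theta N - ∑ m ∈ Finset.range N, Chebyshev.theta m := by
  induction N with
  | zero => simp [SS, PP, Finset.sum_filter]
  | succ N ih =>
    rw [SS_succ, ih, Finset.sum_range_succ, theta_succ]
    split_ifs
    · push_cast; ring
    · push_cast; ring

theorem sum_id (N : ℕ) : ∑ m ∈ Finset.range N, (m : ℝ) = (N : ℝ) * (N - 1) / 2 := by
  induction N with
  | zero => simp
  | succ N ih => rw [Finset.sum_range_succ, ih]; push_cast; ring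

theorem half_lim : Tendsto (fun N : ℕ => (∑ m ∈ Finset.range N, (m : ℝ)) / (N : ℝ) ^ 2) atTop
    (𝓝 (1 / 2)) := by
  have h : Tendsto (fun N : ℕ => (1 - ((N : ℝ))⁻¹) / 2) atTop (𝓝 ((1 - 0) / 2)) :=
    (tendsto_const_nhds.sub (tendsto_inv_atTop_zero.comp tendsto_natCast_atTop_atTop)).div_const 2
  rw [sub_zero] at h
  refine h.congr' ?_
  filter_upwards [eventually_gt_atTop 0] with N hN
  have : (N : ℝ) ≠ 0 := by positivity
  rw [sum_id]; field_simp

theorem rowPL (h : RowPNT) : RowPL := by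
  have hN : Tendsto (fun N : ℕ => Chebyshev.theta N / N) atTop (𝓝 1) :=
    Tendsto.comp h tendsto_natCast_atTop_atTop
  have h1 : (fun m : ℕ => Chebyshev.theta m - m) =o[atTop] fun m : ℕ => (m : ℝ) := by
    refine (isLittleO_iff_tendsto' ?_).mpr ?_
    · filter_upwards [eventually_gt_atTop 0] with m hm h0
      exact absurd h0 (by positivity)
    · have := hN.sub_const 1
      rw [sub_self] at this
      refine this.congr' ?_
      filter_upwards [eventually_gt_atTop 0] with m hm
      have : (m : ℝ) ≠ 0 := by positivity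
      field_simp
  have hg : Tendsto (fun N : ℕ => ∑ m ∈ Finset.range N, (m : ℝ)) atTop atTop := by
    refine tendsto_atTop_mono' atTop ?_
      (tendsto_atTop_add_const_right atTop (-1 : ℝ) tendsto_natCast_atTop_atTop)
    filter_upwards [eventually_ge_atTop 2] with N hN
    have : (2 : ℝ) ≤ N := by exact_mod_cast hN
    rw [sum_id]; nlinarith
  have h2 := h1.sum_range (fun m => Nat.cast_nonneg m) hg
  have h3 : (fun N : ℕ => ∑ m ∈ Finset.range N, (m : ℝ)) =O[atTop] fun N : ℕ => (N : ℝ) ^ 2 :=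
    isBigO_of_div_tendsto_nhds (by
      filter_upwards [eventually_gt_atTop 0] with m hm h0
      exact absurd h0 (by positivity)) _ half_lim
  have h4 := (h2.trans_isBigO h3).tendsto_div_nhds_zero
  have h5 : Tendsto (fun N : ℕ => SS N / (N : ℝ) ^ 2) atTop (𝓝 (1 / 2)) := by
    have := (hN.sub h4).sub half_lim
    have e : (1 : ℝ) - 0 - 1 / 2 = 1 / 2 := by norm_num
    rw [e] at this
    refine this.congr' ?_
    filter_upwards [eventually_gt_atTop 0] with N hN
    have : (N : ℝ) ≠ 0 := by positivity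
    rw [SS_abel, Finset.sum_sub_distrib]
    field_simp
    ring
  have h6 := (h5.comp (tendsto_nat_floor_atTop (α := ℝ))).mul
    ((tendsto_nat_floor_div_atTop (R := ℝ)).pow 2)
  rw [one_pow, mul_one] at h6
  refine h6.congr' ?_
  filter_upwards [eventually_ge_atTop 1] with z hz
  have h0 : (0 : ℝ) < (⌊z⌋₊ : ℝ) := by exact_mod_cast Nat.floor_pos.mpr hz
  have e : SS (⌊z⌋₊ : ℝ) = ∑ p ∈ (Finset.range (⌊z⌋₊ + 1)).filter Nat.Prime,
      (p : ℝ) * Real.log p := by
    rw [SS, PP, Nat.floor_natCast]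
  simp only [Function.comp]
  rw [e]
  field_simp

theorem logn : Tendsto (fun n : ℕ => Real.log n) atTop atTop :=
  Real.tendsto_log_atTop.comp tendsto_natCast_atTop_atTop

theorem sz_top : Tendsto sz atTop atTop :=
  Real.tendsto_sqrt_atTop.comp (Tendsto.atTop_mul_atTop₀ tendsto_natCast_atTop_atTop logn)

theorem sz_sq {n : ℕ} : sz n ^ 2 = n * Real.log n :=
  Real.sq_sqrt (mul_nonneg (Nat.cast_nonneg n) (Real.log_natCast_nonneg n))

theorem log_sz : Tendsto (fun n : ℕ => Real.log (sz n) / Real.log n) atTop (𝓝 (1 / 2)) := by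
  have h1 : Tendsto (fun n : ℕ => Real.log (Real.log n) / Real.log n) atTop (𝓝 0) :=
    Real.isLittleO_log_id_atTop.tendsto_div_nhds_zero.comp logn
  have h2 := (h1.const_add 1).div_const 2
  rw [add_zero] at h2
  refine h2.congr' ?_
  filter_upwards [eventually_ge_atTop 2] with n hn
  have h0 : (1 : ℝ) < n := by exact_mod_cast hn
  have hl : 0 < Real.log n := Real.log_pos h0
  rw [sz, Real.log_sqrt (by positivity), Real.log_mul (by positivity) hl.ne']
  field_simp

theorem land_core (z : ℝ) (hz : 4 ≤ z) (A : Finset ℕ) (hA : ∀ p ∈ A, p.Prime) :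
    ∑ p ∈ A, Real.log p ≤
      Chebyshev.theta z - SS z / z + Real.log z / z * ∑ p ∈ A, (p : ℝ) := by
  have he : Real.exp 1 ≤ 3 := Real.exp_one_lt_three.le
  have hz0 : 0 < z := by linarith
  have hlz : 0 < Real.log z := Real.log_pos (by linarith)
  have anti : ∀ x y : ℝ, 3 ≤ x → x ≤ y → Real.log y / y ≤ Real.log x / x := fun x y hx hxy =>
    Real.log_div_self_antitoneOn (he.trans hx) (he.trans (hx.trans hxy)) hxy
  set f : ℕ → ℝ := fun p => Real.log p - Real.log z / z * p with hf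
  have neg : ∀ p : ℕ, z < p → f p ≤ 0 := by
    intro p hp
    have h1 := anti z p (by linarith) hp.le
    have hp0 : (0 : ℝ) < p := by linarith
    rw [div_le_iff₀ hp0] at h1
    simp only [hf]; linarith
  have pos : ∀ p ∈ PP z, 0 ≤ f p := by
    intro p hp
    obtain ⟨hp, hpz⟩ := (mem_PP hz0.le).mp hp
    have hp0 : (0 : ℝ) < p := by exact_mod_cast hp.pos
    have h1 : Real.log z / z ≤ Real.log p / p := by
      rcases hp.two_le.eq_or_lt with h2 | h2
      · have := anti 4 z (by norm_num) hz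
        have e : Real.log 4 = 2 * Real.log 2 := by
          rw [show (4 : ℝ) = 2 ^ 2 by norm_num, Real.log_pow]; norm_num
        rw [← h2]
        push_cast
        rw [e] at this
        linarith
      · exact anti p z (by exact_mod_cast h2) hpz
    rw [le_div_iff₀ hp0] at h1
    simp only [hf]; linarith
  have s1 : ∑ p ∈ A, f p ≤ ∑ p ∈ A.filter (fun p => p ∈ PP z), f p := by
    rw [Finset.sum_filter]
    refine Finset.sum_le_sum fun p hp => ?_
    split_ifs with h
    · exact le_rfl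
    · refine neg p (not_le.mp fun hh => h ((mem_PP hz0.le).mpr ⟨hA p hp, hh⟩))
  have s2 : ∑ p ∈ A.filter (fun p => p ∈ PP z), f p ≤ ∑ p ∈ PP z, f p :=
    Finset.sum_le_sum_of_subset_of_nonneg (fun p hp => (Finset.mem_filter.mp hp).2)
      fun p hp _ => pos p hp
  have s3 : ∑ p ∈ PP z, f p ≤ Chebyshev.theta z - SS z / z := by
    rw [theta_PP, SS, Finset.sum_div, ← Finset.sum_sub_distrib]
    refine Finset.sum_le_sum fun p hp => ?_
    obtain ⟨hp, hpz⟩ := (mem_PP hz0.le).mp hp
    have hp0 : (0 : ℝ) < p := by exact_mod_cast hp.pos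
    have h1 : Real.log p ≤ Real.log z := Real.log_le_log hp0 hpz
    have h2 : (p : ℝ) * Real.log p / z ≤ Real.log z / z * p := by
      rw [div_mul_eq_mul_div, mul_comm (Real.log z)]
      gcongr
    simp only [hf]; linarith
  have s4 : ∑ p ∈ A, f p = ∑ p ∈ A, Real.log p - Real.log z / z * ∑ p ∈ A, (p : ℝ) := by
    rw [Finset.mul_sum, ← Finset.sum_sub_distrib]
  linarith

theorem rowLAND (h : RowPNT) (h' : RowPL) : RowLAND := by
  intro ε hε
  have h1 : Tendsto (fun n : ℕ => Chebyshev.theta (sz n) / sz n) atTop (𝓝 1) :=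
    Tendsto.comp h sz_top
  have h2 : Tendsto (fun n : ℕ => SS (sz n) / sz n ^ 2) atTop (𝓝 (1 / 2)) :=
    Tendsto.comp h' sz_top
  have h3 := (h1.sub h2).add log_sz
  have e : (1 : ℝ) - 1 / 2 + 1 / 2 = 1 := by norm_num
  rw [e] at h3
  filter_upwards [h3.eventually (gt_mem_nhds (show (1 : ℝ) < 1 + ε by linarith)),
    sz_top.eventually_ge_atTop 4, eventually_ge_atTop 2] with n hn hz hn2 A hA hs
  have h0 : (1 : ℝ) < n := by exact_mod_cast hn2
  have hl : 0 < Real.log n := Real.log_pos h0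
  have hz0 : 0 < sz n := by linarith
  have hlz : 0 < Real.log (sz n) := Real.log_pos (by linarith)
  have hs' : ∑ p ∈ A, (p : ℝ) ≤ n := by
    rw [← Nat.cast_sum]; exact Nat.cast_le.mpr hs
  have c := land_core (sz n) hz A hA
  have c2 : Real.log (sz n) / sz n * ∑ p ∈ A, (p : ℝ) ≤ Real.log (sz n) / sz n * n := by
    gcongr
  have e1 : Real.log (sz n) / sz n * n = Real.log (sz n) / Real.log n * sz n := by
    have := sz_sq (n := n)
    field_simp
    linarith
  have e2 : Chebyshev.theta (sz n) - SS (sz n) / sz n + Real.log (sz n) / Real.log n * sz n =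
      (Chebyshev.theta (sz n) / sz n - SS (sz n) / sz n ^ 2 + Real.log (sz n) / Real.log n) *
        sz n := by
    field_simp
  have c3 := mul_le_mul_of_nonneg_right hn.le hz0.le
  linarith

theorem low_core (w c : ℝ) (hw : 0 ≤ w) (hc : 1 < c) :
    ∑ p ∈ PP w, (p : ℝ) ≤ c * c + SS w / Real.log c := by
  have hl : 0 < Real.log c := Real.log_pos hc
  have s1 : ∑ p ∈ PP w, (p : ℝ) ≤
      ∑ p ∈ PP w, ((if p ∈ Finset.Ioc 0 ⌊c⌋₊ then c else 0) + p * Real.log p / Real.log c) := by
    refine Finset.sum_le_sum fun p hp => ?_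
    obtain ⟨hp, -⟩ := (mem_PP hw).mp hp
    have hp0 : (0 : ℝ) < p := by exact_mod_cast hp.pos
    have hn : 0 ≤ (p : ℝ) * Real.log p / Real.log c :=
      div_nonneg (mul_nonneg hp0.le (Real.log_natCast_nonneg p)) hl.le
    split_ifs with h
    · have := (Nat.le_floor_iff (by linarith)).mp (Finset.mem_Ioc.mp h).2
      linarith
    · have h1 : c < p := by
        by_contra hh
        exact h (Finset.mem_Ioc.mpr ⟨hp.pos, (Nat.le_floor_iff (by linarith)).mpr (not_lt.mp hh)⟩)
      have h2 : Real.log c ≤ Real.log p := Real.log_le_log (by linarith) h1.le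
      rw [zero_add, le_div_iff₀ hl]
      gcongr
  rw [Finset.sum_add_distrib, ← Finset.sum_div, ← Finset.sum_filter, Finset.sum_const,
    nsmul_eq_mul] at s1
  have s2 : ((PP w).filter fun p => p ∈ Finset.Ioc 0 ⌊c⌋₊).card ≤ ⌊c⌋₊ := by
    refine (Finset.card_le_card fun p hp => (Finset.mem_filter.mp hp).2).trans ?_
    simp
  have s3 : (((PP w).filter fun p => p ∈ Finset.Ioc 0 ⌊c⌋₊).card : ℝ) ≤ c :=
    (Nat.cast_le.mpr s2).trans (Nat.floor_le (by linarith))
  have s4 := mul_le_mul_of_nonneg_right s3 (show 0 ≤ c by linarith)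
  exact s1.trans (by rw [SS]; linarith)

theorem rowLOW (h : RowPNT) (h' : RowPL) : RowLOW := by
  intro ε hε
  obtain ⟨δ, hδ0, hδ1, hδε⟩ : ∃ δ : ℝ, 0 < δ ∧ δ < 1 ∧ δ < ε :=
    ⟨min (1 / 2) (ε / 2), by positivity, (min_le_left _ _).trans_lt (by norm_num),
      (min_le_right _ _).trans_lt (by linarith)⟩
  have hd : 0 < 1 - δ := by linarith
  have hw : Tendsto (fun n : ℕ => (1 - δ) * sz n) atTop atTop := sz_top.const_mul_atTop hd
  have h1 : Tendsto (fun n : ℕ => Chebyshev.theta ((1 - δ) * sz n) / ((1 - δ) * sz n)) atTop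
      (𝓝 1) := Tendsto.comp h hw
  have h2 : Tendsto (fun n : ℕ => SS ((1 - δ) * sz n) / ((1 - δ) * sz n) ^ 2) atTop
      (𝓝 (1 / 2)) := Tendsto.comp h' hw
  have hc : Tendsto (fun n : ℕ => δ * Real.sqrt n) atTop atTop :=
    (Real.tendsto_sqrt_atTop.comp tendsto_natCast_atTop_atTop).const_mul_atTop hδ0
  have h3 : Tendsto (fun n : ℕ => Real.log (δ * Real.sqrt n) / Real.log n) atTop (𝓝 (1 / 2)) := by
    have := (Tendsto.div_atTop (tendsto_const_nhds (x := Real.log δ)) logn).add_const (1 / 2)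
    rw [zero_add] at this
    refine this.congr' ?_
    filter_upwards [eventually_ge_atTop 2] with n hn
    have h0 : (1 : ℝ) < n := by exact_mod_cast hn
    have hl : 0 < Real.log n := Real.log_pos h0
    rw [Real.log_mul hδ0.ne' (by positivity), Real.log_sqrt (by positivity)]
    field_simp
  have h4 := ((h2.div h3 (by norm_num)).mul_const ((1 - δ) ^ 2)).const_add (δ ^ 2)
  have h5 := h1.const_mul (1 - δ)
  filter_upwards [h4.eventually (gt_mem_nhds (show δ ^ 2 + (1 / 2 : ℝ) / (1 / 2) * (1 - δ) ^ 2 < 1 by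
      nlinarith)),
    h5.eventually (lt_mem_nhds (show 1 - ε < (1 - δ) * 1 by linarith)),
    sz_top.eventually_gt_atTop 0, hc.eventually_gt_atTop 1, eventually_ge_atTop 2]
    with n hn hn' hz hc1 hn2
  have h0 : (1 : ℝ) < n := by exact_mod_cast hn2
  have hl : 0 < Real.log n := Real.log_pos h0
  have hlc : 0 < Real.log (δ * Real.sqrt n) := Real.log_pos hc1
  have hw0 : 0 < (1 - δ) * sz n := by positivity
  refine ⟨PP ((1 - δ) * sz n), fun p hp => ((mem_PP hw0.le).mp hp).1, ?_, ?_⟩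
  · have c := low_core _ _ hw0.le hc1
    have e1 : δ * Real.sqrt n * (δ * Real.sqrt n) = δ ^ 2 * n := by
      have := Real.mul_self_sqrt (Nat.cast_nonneg (α := ℝ) n)
      calc δ * Real.sqrt n * (δ * Real.sqrt n) = δ ^ 2 * (Real.sqrt n * Real.sqrt n) := by ring
        _ = δ ^ 2 * n := by rw [this]
    have e2 : SS ((1 - δ) * sz n) / Real.log (δ * Real.sqrt n) =
        SS ((1 - δ) * sz n) / ((1 - δ) * sz n) ^ 2 / (Real.log (δ * Real.sqrt n) / Real.log n) *
          (1 - δ) ^ 2 * n := by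
      rw [mul_pow, sz_sq]
      field_simp
    have c3 := mul_le_mul_of_nonneg_right hn.le (show (0 : ℝ) ≤ n by positivity)
    have : ∑ p ∈ PP ((1 - δ) * sz n), (p : ℝ) ≤ n := by
      rw [e1, e2] at c
      simp only [Pi.div_apply] at c3
      linarith
    rw [← Nat.cast_sum] at this
    exact Nat.cast_le.mp this
  · rw [← theta_PP]
    have c3 := mul_le_mul_of_nonneg_right hn'.le hz.le
    have e : (1 - δ) * (Chebyshev.theta ((1 - δ) * sz n) / ((1 - δ) * sz n)) * sz n =
        Chebyshev.theta ((1 - δ) * sz n) := by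
      field_simp
    linarith

end Pool.Agent.MP_db5b97_nt.H82

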